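import Pool.Agent.Helper61.NW.Goals

/-!
# Project NW+: two-ended groups and virtually nilpotent groups
-/

set_option autoImplicit false

namespace Pool.Agent.Helper61.NW

open Pool.Agent.Helper52.Wq2
open scoped Nat

universe u

/-! ### Part 1: Lemma Z for elements with finitely many conjugates -/

/-- As `Big`, `z` with finitely many conjugates and `w` commuting with `z`. -/
def Big2 (Γ : Type u) [Group Γ] : Prop := ∃ z w : Γ, w * z = z * w ∧
  (∀ i j : ℤ, w ^ i * z ^ j = 1 → i = 0 ∧ j = 0) ∧ (Set.range fun g : Γ => g⁻¹ * z * g).Finite ∧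
  ¬ (Subgroup.closure {z, w}).FiniteIndex

/-- **ZD2.** Adapt `Pool/Agent/Helper35/NW/ZED.lean` (or Helper12, Helper74): `B` a finite connected
set which contains `1` and all conjugates `g⁻¹ z g`; `T k = {z ^ i * w ^ (N k) * x * b | i, b ∈ B}`,
connected because `y B` contains `y` and `y (y⁻¹ z y) = z y`; everything is invariant under LEFT
multiplication by `z`. -/
def Zd2Stmt : Prop := ∀ (Γ : Type u) [Group Γ] (S : Set Γ), IsGen S → S.Finite → Big2 Γ →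
  KN (cay S)

/-- **VNL.** (May assume `CenStmt`, `NilStmt`, `SchStmt`.)

Proof. `N` is finitely generated and infinite. NIL: `Big N`, so `Big2 Γ` (`z` is central in `N`, so has
finitely many conjugates in `Γ`), or the centre of `N` has finite index: SCH for `N`. `h : N → ℤ`:
`h c = 1`. `h : N → ℤ × ℤ`: `s`, `t` with independent images, some powers are central, they generate
`A`, of finite index. -/
def VnlStmt : Prop := ∀ (Γ : Type u) [Group Γ], Group.FG Γ → Infinite Γ →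
  (∃ N : Subgroup Γ, N.FiniteIndex ∧ Group.IsNilpotent N) →
  Big2 Γ ∨ (∃ A : Subgroup Γ, A.FiniteIndex ∧ Nonempty (A ≃* Multiplicative (ℤ × ℤ))) ∨
    ∃ c : Γ, (Subgroup.zpowers c).FiniteIndex

/-- **IN2.** As INF, from `InfiniteGenerators` (no free subgroup of rank 2, `N = Γ`). -/
def In3Stmt : Prop := ∀ (Γ : Type u) [Group Γ] (S : Set Γ), Infinite Γ → IsGen S → S.Infinite →
  (∃ N : Subgroup Γ, N.FiniteIndex ∧ Group.IsNilpotent N) → KN (cay S)

/-! ### Part 2: two-ended groups -/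

/-- The dihedral type: `h` is a cocycle for the sign `ε`. -/
structure Dh {Γ : Type u} [Group Γ] (ε : Γ →* ℤˣ) (h : Γ → ℤ) : Prop where
  neg : ∃ u, ε u = -1
  coc : ∀ a b, h (a * b) = h a + (ε a : ℤ) * h b
  ker : {g | ε g = 1 ∧ h g = 0}.Finite
  unb : ∃ g, ε g = 1 ∧ h g ≠ 0

/-- **TEN.** (May assume `SchStmt`.)

Proof. Some `z = c ^ k`, `k > 0`, generates a normal subgroup of finite index. `ε g` is the sign of the
conjugation by `g` on `⟨z⟩`, `Γ₀ = ker ε`: `z` is central in `Γ₀`, so the centre of `Γ₀` has finite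
index; SCH (only the case `ℤ` is possible, as `⟨z⟩` has finite index): `h₀ : Γ₀ → ℤ` onto with
finite kernel `K` (the elements of finite order of `Γ₀`). If `ε = 1` this is the first case. Otherwise
let `ε u = -1`: `h₀ (u g u⁻¹) = - h₀ g` (both have kernel `K` and are onto `ℤ`, and
`u z u⁻¹ = z⁻¹`); `u²` commutes with `u`, so `h₀ (u²) = 0`. `h g = h₀ g` on `Γ₀` and
`h (g u) = h₀ g`. -/
def TenStmt : Prop := ∀ (Γ : Type u) [Group Γ], Infinite Γ →
  (∃ c : Γ, (Subgroup.zpowers c).FiniteIndex) →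
  (∃ h : Γ →* Multiplicative ℤ, Function.Surjective h ∧ (h.ker : Set Γ).Finite) ∨
    ∃ (ε : Γ →* ℤˣ) (h : Γ → ℤ), Dh ε h

/-- Line systems: `n` lines, period `m`. -/
structure Lsys (n m : ℕ) (G : SimpleGraph (ℤ × Fin n)) : Prop where
  npos : 0 < n
  mpos : 0 < m
  step : ∀ a j, G.Adj (a, j) (a + 1, j)
  near : ∀ a b i j, G.Adj (a, i) (b, j) → |a - b| ≤ 1
  per : ∀ a b i j, G.Adj (a, i) (b, j) ↔ G.Adj (a + m, i) (b + m, j)
  conn : Conn G Set.univ
  trans : ∀ i j, ∃ (f : G ≃g G) (τ : Equiv.Perm (Fin n)) (e : ℤ) (c : Fin n → ℤ),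
    (e = 1 ∨ e = -1) ∧ τ i = j ∧ ∀ a k, f (a, k) = (e * a + c k, τ k)

/-- **DIH.** The dihedral type gives line systems.

Proof. `K = {ε = 1, h = 0}`, `Γ₀ = ker ε`. For `y₀ ∈ ℤ` let `X g = 4 h g + ε g y₀`;
`X (g t) - X g = ε g (X t - y₀)`, and `X t - y₀ = 4 h t + (ε t - 1) y₀`. If there are reflections
(`ε t = -1`) in `S` (there are, `S` generates) let `t`, `r` be those with maximal and minimal `h`, and
`y₀ = h t + h r`: `X t - y₀ = 2 (h t - h r) = - (X r - y₀)`, and all reflections have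
`|X u - y₀| ≤ 2 (h t - h r)`. `H` = maximum of `|X u - y₀|`, `u ∈ S`, positive (`Γ` is infinite).
Case 1: `H = |X s - y₀| = 4 |h s|` for some `s ∈ S`, `ε s = 1`. Lines = left cosets of `⟨s⟩`; on `g⟨s⟩` the
heights `X (g s ^ i) = X g ± i H` form a progression with difference `H`. Case 2: otherwise
`H = 2 (h t - h r)`. `φ g = g t` for `g ∈ Γ₀`, `φ g = g r` for `g ∉ Γ₀` is a permutation of `Γ`,
`X (φ g) = X g + H`, lines = its orbits. In both cases position = `⌊X g / H⌋`, every edge changes it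
by at most `1`. Number of lines `n`: finite (`{g | 0 ≤ X g < H}` is finite), `|K| ≤ n`. Left
multiplication by a suitable `c ∈ Γ₀` maps every line to itself and shifts by `m`: case 1: `c` =
`s` to the power `n ! |K| |K|`; `s ^ (n !)` commutes with `K`, `x⁻¹ s ^ (n !) x = k s ^ (± n !)` with
`k ∈ K`. Case 2: `c` = `t r` to the same power, `m` = twice the power (`x⁻¹ c x = c` for `x ∈ Γ₀`,
and `c g = φ ^ (2 M) g` on `Γ₀`, `c g t = φ ^ (2 M) (g t)`). Transitivity: left multiplications by `Γ`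
(case 1, positions reversed if `ε = -1`), by `Γ₀` (case 2: every line meets `Γ₀`). -/
def DihStmt : Prop := ∀ (Γ : Type u) [Group Γ] (ε : Γ →* ℤˣ) (h : Γ → ℤ) (S : Set Γ), Dh ε h →
  IsGen S → S.Finite → ∃ (n m : ℕ) (G : SimpleGraph (ℤ × Fin n)), m ≤ 2 * (n ! * (n * n)) ∧
    Lsys n m G ∧ Nonempty (cay S ≃g G)

/-! ### Part 3: line systems -/

/-- **LPR.** Blocks `[m x, m (x + 1))` of positions. (Compare `Pool/Agent/Helper66/NW/PER.lean`.) -/
def LprStmt : Prop := ∀ (n m : ℕ) (G : SimpleGraph (ℤ × Fin n)), Lsys n m G →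
  ∃ D, Nonempty (G ≃g Per (n * m) D)

/-- The graph of the lines. -/
def Lg {n : ℕ} (G : SimpleGraph (ℤ × Fin n)) : SimpleGraph (Fin n) :=
  SimpleGraph.fromRel (fun i j => ∃ a b : ℤ, G.Adj (a, i) (b, j))

/-- **LST.** (Compare `Pool/Agent/Helper77/NW/STL.lean`.) Blocks `[(m + 1) x, (m + 1) (x + 1))`. -/
def LstStmt : Prop := ∀ (n m : ℕ) (G : SimpleGraph (ℤ × Fin n)), Lsys n m G →
  ∀ (q : ℕ) (C : Set (Fin n)) (B : Fin q → Fin n), Conn (Lg G) C → Function.Injective B →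
    (∀ i, B i ∉ C) → (∀ i, ∃ A ∈ C, (Lg G).Adj A (B i)) → Mn (StarZ (Fin q)) G

/-- The lines form a cycle. -/
def LCyc {n : ℕ} (G : SimpleGraph (ℤ × Fin n)) (e : Fin n ≃ ZMod n) : Prop :=
  ∀ u v, (Lg G).Adj u v ↔ (e v = e u + 1 ∨ e u = e v + 1)

/-- **LCN.** (Compare `Pool/Agent/Helper53/NW/CYN.lean`.) -/
def LcnStmt : Prop := ∀ (n m : ℕ) (G : SimpleGraph (ℤ × Fin n)), Lsys n m G → 3 ≤ n →
  ∀ e, LCyc G e → Mn (Cyl n) G

/-- A crossing in the gap between the lines `j` and `j + 1`. -/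
def LCrs {n : ℕ} (G : SimpleGraph (ℤ × Fin n)) (e : Fin n ≃ ZMod n) (j : ZMod n) : Prop :=
  ∃ (a : ℤ) (u v : Fin n), e u = j ∧ e v = j + 1 ∧ G.Adj (a, u) (a + 1, v) ∧
    G.Adj (a + 1, u) (a, v)

/-- **LCX.** (Compare the CRX files.) Two edges `(a, u) (b, v)`, `(a', u) (b', v)` with `a < a'`,
`b' < b` are a crossing (`near`), so crossings are preserved by the automorphisms of `trans`. So all
gaps `j₀ + 2 i` have crossings, as in `Pool/Agent/Helper7/NW/SHIFT.lean`; then a combinatorial half of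
CRX (`Pool/Agent/Helper62/NW/Route.lean`, `Helper54/NW/XS.lean`, `Helper67/NW/Swaps.lean`). -/
def LcxStmt : Prop := ∀ (n m : ℕ) (G : SimpleGraph (ℤ × Fin n)), Lsys n m G → 3 ≤ n →
  ∀ e, LCyc G e → (∃ j, LCrs G e j) → ∀ q : ℕ, 2 * q + 4 ≤ n → Mn (StarZ (Fin q)) G

/-- **LNC.** (May assume `CylStmt`; compare `Pool/Agent/Helper22/NW/NCR.lean`.) -/
def LncStmt : Prop := ∀ (n m : ℕ) (G : SimpleGraph (ℤ × Fin n)), Lsys n m G → 3 ≤ n →
  ∀ e, LCyc G e → (∀ j, ¬ LCrs G e j) → ∃ M₀ : ℕ, ∀ M, M₀ ≤ M → Mn G (Cyl M)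

/-- One-dimensional type (weaker than `T2`). -/
def T3 {V : Type*} (G : SimpleGraph V) (n : ℕ) : Prop :=
  (∃ N, N ≤ n * (2 * (n ! * (n * n))) ∧ ∃ D, Nonempty (G ≃g Per N D)) ∧
  ∀ p : ℕ, (2 * p + 3) ^ (8 * p + 6) + 5 ≤ n → Mn (Pk p) G ∨
    (Mn (Cyl n) G ∧ ∃ M₀ : ℕ, ∀ M, M₀ ≤ M → Mn G (Cyl M))

/-- **LTT.** (May assume `LprStmt`, `LstStmt`, `DegStmt.{0}`, `CycStmt.{0}`, `LcnStmt`, `LcxStmt`,
`LncStmt`; compare `Pool/Agent/Helper7/NW/TTW.lean`.) -/
def LttStmt : Prop := ∀ (n m : ℕ) (G : SimpleGraph (ℤ × Fin n)), Lsys n m G →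
  m ≤ 2 * (n ! * (n * n)) → T3 G n

/-- **SQ3.** Copy `Pool/Agent/Helper52/NW/SEQ.lean`. -/
def Sq3Stmt : Prop := ∀ (V : ℕ → Type u) [∀ i, Countable (V i)] (G : ∀ i, SimpleGraph (V i)),
  (∀ i, KN (G i) ∨ (∃ b, Nonempty (G i ≃g Lat b)) ∨ ∃ n, T3 (G i) n) →
  ∃ i j, i < j ∧ Mn (G i) (G j)

/-- **FN3.** The final assembly. -/
def Fn3Stmt : Prop := ∀ (Γ : ℕ → Type u) [∀ i, Group (Γ i)] [∀ i, Countable (Γ i)]
  (S : ∀ i, Set (Γ i)), (∀ i, IsGen (S i)) →
  (∀ i, (Infinite (Γ i) ∧ (Group.IsNilpotent (Γ i) ∨ (Subgroup.center (Γ i)).FiniteIndex ∨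
      ((∃ N : Subgroup (Γ i), N.FiniteIndex ∧ Group.IsNilpotent N) ∧
        ¬ ∃ A : Subgroup (Γ i), A.FiniteIndex ∧ Nonempty (A ≃* Multiplicative (ℤ × ℤ))))) ∨
    KN (cay (S i))) → ∃ i j, i < j ∧ Mn (cay (S i)) (cay (S j))

end Pool.Agent.Helper61.NW
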