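import Pool.Agent.Helper52.Wq2.Seq

/-!
# Project NW: Cayley graphs of infinite nilpotent groups and of infinite groups with centre of
finite index are well-quasi-ordered under minors
-/

set_option autoImplicit false

namespace Pool.Agent.Helper61.NW

open Pool.Agent.Helper52.Wq2
open scoped Nat

universe u

/-- Every countable graph is a minor. -/
def KN {V : Type*} (G : SimpleGraph V) : Prop := Mn (⊤ : SimpleGraph ℕ) G

/-! ### Part 1: Lemma Z -/

/-- A central element `z` of infinite order and an element `w` which has infinite order modulo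
`⟨z⟩`, such that `⟨z, w⟩` has infinite index. -/
def Big (Γ : Type u) [Group Γ] : Prop := ∃ z w : Γ, (∀ g, g * z = z * g) ∧
  (∀ i j : ℤ, w ^ i * z ^ j = 1 → i = 0 ∧ j = 0) ∧ ¬ (Subgroup.closure {z, w}).FiniteIndex

/-- **ZED.**

Proof (helper74's form). `Q = Γ / ⟨z⟩` with the graph of the image of `S`, locally finite. `R` = length
of a word for `z` in `S`, `R' = 2 R + 2`. `C` = union of the translates by the powers of `w` of a path
from `1` to `w` in `Q`: connected and invariant under left multiplication by `w`. As `⟨w⟩` has infinite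
index in `Q`, there is `x` with `d (x, C) = R'` and a path `c` of length `R'` from `x` to `C`.
`x i = w ^ (N i) x`, `N` large: the points `x i` are at distance `> 4 R' + 4`; the paths from `x i` to
`x j` through `w ^ (N i) c`, `C`, `w ^ (N j) c` avoid the balls `B (x k, R)`, `k ≠ i, j`. `T k` = preimage
of `B (x k, R)` in `Γ`: connected (a path in the ball to `x k` lifts; the lifts `g z ^ i` of `x k` are
joined by `g z ^ i` times the path of the word for `z`, which stays over the ball). Lift the paths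
and multiply by powers of `z`, so that the lifts for the pairs `i < j` (enumerated) are pairwise
disjoint. Branch set `i`: `T i` and for all `j > i` the lift for `(i, j)` up to its first entry
into `T j`. -/
def ZedStmt : Prop := ∀ (Γ : Type u) [Group Γ] (S : Set Γ), IsGen S → S.Finite → Big Γ →
  KN (cay S)

/-! ### Part 2: groups -/

/-- **CEN.** Proof. Induction on the class. `Γ / Z` finite: `Z` is finitely generated, infinite and
abelian. Otherwise `x Z` is central of infinite order in `Γ / Z`, `g ↦ [x, g]` is a homomorphism to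
`Z`; if all elements of `Z` have finite order, its image is finite, of exponent `e`, and `x ^ e` is
central, a contradiction. -/
def CenStmt : Prop := ∀ (Γ : Type u) [Group Γ], Group.FG Γ → Infinite Γ → Group.IsNilpotent Γ →
  ∃ z : Γ, (∀ g, g * z = z * g) ∧ ∀ n : ℤ, z ^ n = 1 → n = 0

/-- **NIL.** (May assume `CenStmt`.)

Proof. `z` from CEN, `Q = Γ / ⟨z⟩`. `Q` finite: finite index. `Q` infinite: `w ∈ Γ` with image central
of infinite order in `Q` (CEN). `⟨z, w⟩` of infinite index: `Big`. Otherwise `g ↦ [w, g]` is a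
homomorphism to `⟨z⟩` which kills `⟨z, w⟩`, a normal subgroup of finite index, so is trivial; `w` is
central, and the centre contains `⟨z, w⟩`. -/
def NilStmt : Prop := ∀ (Γ : Type u) [Group Γ], Group.FG Γ → Infinite Γ → Group.IsNilpotent Γ →
  (Subgroup.center Γ).FiniteIndex ∨ Big Γ

/-- **SCH.** Proof. `Γ'` is finite (Schur, in Mathlib), so the elements of finite order form a finite normal
subgroup `K` (preimage of the torsion of the finitely generated abelian group `Γ / Γ'`), and
`Γ / K` is `ℤ ^ r`, `r ≥ 1`. For `r ≥ 3`: the centre has finite index, so contains `z`, `w` whose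
images in `ℤ ^ r` are independent, and `⟨z, w⟩` has infinite index. -/
def SchStmt : Prop := ∀ (Γ : Type u) [Group Γ], Group.FG Γ → Infinite Γ →
  (Subgroup.center Γ).FiniteIndex → Big Γ ∨
    (∃ h : Γ →* Multiplicative ℤ, Function.Surjective h ∧ (h.ker : Set Γ).Finite) ∨
    ∃ h : Γ →* Multiplicative (ℤ × ℤ), Function.Surjective h ∧ (h.ker : Set Γ).Finite

/-- **INF.** From `Pool.Agent.Results.MP_266b34_co.InfiniteGenerators` (its proof). -/
def InfStmt : Prop := ∀ (Γ : Type u) [Group Γ] (S : Set Γ), Infinite Γ → IsGen S → S.Infinite →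
  (Group.IsNilpotent Γ ∨ (Subgroup.center Γ).FiniteIndex) → KN (cay S)

/-- **GR2.** Finite-by-`ℤ²`, not abelian type.

Proof. `s, t ∈ S` with independent images, `m > 0` with `s ^ m`, `t ^ m` central (`K = ker h` is
finite: `s ^ a` commutes with `K` for some `a > 0`, `x s ^ a x⁻¹ = c s ^ a`, `c ∈ K`, so
`x s ^ (a |K|) x⁻¹ = s ^ (a |K|)`). `D = ⋃_j t ^ (m j) ⟨s⟩ ∪ ⋃_i s ^ (m i) ⟨t⟩`. For `1 ≠ k ∈ K` the
sets `D` and `k D` are disjoint (look at the images in `ℤ²`). A path between them with minimal length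
and its translates by `s ^ (M i) t ^ (M j)` (disjoint for large `M`). Leaf `i` at height `j`:
the piece of `s ^ (M i) ⟨t⟩` with exponents of `t` in `[M j, M (j + 1))` (shifted). Centre at height
`j`: a horizontal line of `k D` in the strip, together with the vertical lines of `k D` in the strip
and the translates of the path. The centres and leaves of consecutive heights are adjacent. -/
def Gr2Stmt : Prop := ∀ (Γ : Type u) [Group Γ] (h : Γ →* Multiplicative (ℤ × ℤ)) (S : Set Γ),
  Function.Surjective h → (h.ker : Set Γ).Finite → (∃ k : Γ, k ≠ 1 ∧ h k = 1) → IsGen S → S.Finite →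
  Mn (StarZ ℕ) (cay S)

/-! ### Part 3: two ends -/

/-- The set-up for finite-by-`ℤ` groups: `s` is a generator of maximal height `H`, `n` the number of
lines `g⟨s⟩`, `s ^ m` is central. -/
structure Two {Γ : Type u} [Group Γ] (S : Set Γ) (h : Γ → ℤ) (s : Γ) (H n m : ℕ) : Prop where
  hom : ∀ a b, h (a * b) = h a + h b
  ker : {g | h g = 0}.Finite
  gen : IsGen S
  fin : S.Finite
  hs : s ∈ S
  Hs : h s = H
  Hpos : 0 < H
  max : ∀ t ∈ S, |h t| ≤ H
  card : Nat.card (Γ ⧸ Subgroup.zpowers s) = n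
  npos : 0 < n
  cen : ∀ g, g * s ^ m = s ^ m * g
  mpos : 0 < m
  mle : m ≤ n ! * n

/-- **TWO.** Proof. `s ∈ S` with `|h s|` maximal (or its inverse). The index of `⟨s⟩` is `H |K|`,
`K = ker`. `m = n ! * |K|`: `s ^ (n !)` commutes with `K` (`|Aut K|` divides ... the order of the
permutation of `K` by conjugation divides `|K| !`, `|K| ≤ n`), `x s ^ (n !) x⁻¹ = c s ^ (n !)` with
`c ∈ K`, so the power `|K|` is central. -/
def TwoStmt : Prop := ∀ (Γ : Type u) [Group Γ] (h : Γ →* Multiplicative ℤ) (S : Set Γ),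
  Function.Surjective h → (h.ker : Set Γ).Finite → IsGen S → S.Finite →
  ∃ (h' : Γ → ℤ) (s : Γ) (H n m : ℕ), Two S h' s H n m

/-- The graph of the lines. -/
def Ln {Γ : Type u} [Group Γ] (S : Set Γ) (s : Γ) : SimpleGraph (Γ ⧸ Subgroup.zpowers s) :=
  SimpleGraph.fromRel (fun A B => ∃ g t : Γ, t ∈ S ∧ (g : Γ ⧸ Subgroup.zpowers s) = A ∧
    ((g * t : Γ) : Γ ⧸ Subgroup.zpowers s) = B)

/-- **PER.** (Compare `R1.per`.) Proof. `pos g = h g / H` (floor) is a bijection `g⟨s⟩ → ℤ` on every
line, changes by at most `1` along an edge (`|h t| ≤ H`), and `pos (s ^ m g) = pos g + m`. Left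
multiplication by `s ^ m` is an automorphism. Blocks `pos g ∈ [m x, m (x + 1))` have `n m`
elements; `N = n m`. -/
def PerStmt : Prop := ∀ (Γ : Type u) [Group Γ] (S : Set Γ) (h : Γ → ℤ) (s : Γ) (H n m : ℕ),
  Two S h s H n m → ∃ N, N ≤ n * (n ! * n) ∧ ∃ D, Nonempty (cay S ≃g Per N D)

/-- **STL.** Stars of lines. Proof. Centre `(x, none)`: the elements of the lines of `C` with `pos` in
`[(m + 1) x, (m + 1) (x + 1))`, leaf `(x, some i)`: the elements of the line `B i` with such `pos`.
(Adjacent lines are adjacent in every block: an edge between them, `pos` differs by at most `1`,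
translated by powers of `s ^ m`.) -/
def StlStmt : Prop := ∀ (Γ : Type u) [Group Γ] (S : Set Γ) (h : Γ → ℤ) (s : Γ) (H n m : ℕ),
  Two S h s H n m → ∀ (q : ℕ) (C : Set (Γ ⧸ Subgroup.zpowers s))
    (B : Fin q → Γ ⧸ Subgroup.zpowers s), Conn (Ln S s) C → Function.Injective B →
    (∀ i, B i ∉ C) → (∀ i, ∃ A ∈ C, (Ln S s).Adj A (B i)) → Mn (StarZ (Fin q)) (cay S)

/-- **DEG.** Proof. If a vertex has degree `≥ q`, `C` is this vertex. Otherwise the diameter is more
than `3 q + 1` (count), `C` = the vertices `v 0, …, v (3 q + 1)` of a geodesic path; each inner vertex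
has a neighbour outside of `C`, and a vertex outside is adjacent to at most three vertices of `C`. -/
def DegStmt : Prop := ∀ (V : Type u) [Finite V] (L : SimpleGraph V), Conn L Set.univ →
  (∀ v, 3 ≤ (L.neighborSet v).ncard) → ∀ q : ℕ, (q + 3) ^ (4 * q + 6) ≤ Nat.card V →
  ∃ (C : Set V) (B : Fin q → V), Conn L C ∧ Function.Injective B ∧ (∀ i, B i ∉ C) ∧
    ∀ i, ∃ A ∈ C, L.Adj A (B i)

/-- **CYC.** Connected transitive graphs of degree at most two. (All degrees are equal, and are two as
there are at least three vertices. Mathlib: `SimpleGraph.IsCycles`.) -/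
def CycStmt : Prop := ∀ (V : Type u) [Finite V] (L : SimpleGraph V), Conn L Set.univ →
  (∀ v, (L.neighborSet v).ncard ≤ 2) → (∀ u v : V, ∃ e : L ≃g L, e u = v) → ∀ n : ℕ, 3 ≤ n →
  Nat.card V = n → ∃ e : V ≃ ZMod n, ∀ u v, L.Adj u v ↔ (e v = e u + 1 ∨ e u = e v + 1)

/-- The lines form a cycle. -/
def IsCyc {Γ : Type u} [Group Γ] (S : Set Γ) (s : Γ) (n : ℕ)
    (e : (Γ ⧸ Subgroup.zpowers s) ≃ ZMod n) : Prop :=
  ∀ u v, (Ln S s).Adj u v ↔ (e v = e u + 1 ∨ e u = e v + 1)

/-- **CYN.** As STL, with blocks. -/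
def CynStmt : Prop := ∀ (Γ : Type u) [Group Γ] (S : Set Γ) (h : Γ → ℤ) (s : Γ) (H n m : ℕ),
  Two S h s H n m → 3 ≤ n → ∀ e, IsCyc S s n e → Mn (Cyl n) (cay S)

/-- A crossing in the gap between the lines `j` and `j + 1`. -/
def Crs {Γ : Type u} [Group Γ] (S : Set Γ) (h : Γ → ℤ) (s : Γ) (H n : ℕ)
    (e : (Γ ⧸ Subgroup.zpowers s) ≃ ZMod n) (j : ZMod n) : Prop :=
  ∃ a b : Γ, e (a : Γ ⧸ Subgroup.zpowers s) = j ∧ e (b : Γ ⧸ Subgroup.zpowers s) = j + 1 ∧
    h b = h a + H ∧ a⁻¹ * b ∈ S ∧ (a * s)⁻¹ * (b * s⁻¹) ∈ S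

/-- **CRX.** Proof. `Γ` acts transitively on the lines by left multiplication (`h (g x) = h g + h x`), preserving crossings
(a crossing between two lines is symmetric in the lines: swap `a` with `b s⁻¹` and `b` with `a s`; if the
left multiplication reverses the cycle, gaps are mapped to gaps), so every line is in a gap with a
crossing, so after a shift of the numbering the gaps `(A (2 j), A (2 j + 1))`, `2 j + 1 < n`, have
crossings (if some gap `(j, j + 1)` has none, then `(j + 1, j + 2)` and `(j - 1, j)` have, and by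
transitivity they alternate). The centre strand walks to the right through the pairs of lines
`j = 1, …, q`, leaf strand `j` uses only the two lines of pair `j` and changes places with the centre
at a crossing; then the centre walks back to the left, and so on. Everything is repeated with
period `m` by left multiplication by `s ^ m`, so each step can be done at arbitrarily high positions
and with bounded heights. -/
def CrxStmt : Prop := ∀ (Γ : Type u) [Group Γ] (S : Set Γ) (h : Γ → ℤ) (s : Γ) (H n m : ℕ),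
  Two S h s H n m → 3 ≤ n → ∀ e, IsCyc S s n e → (∃ j, Crs S h s H n e j) →
  ∀ q : ℕ, 2 * q + 4 ≤ n → Mn (StarZ (Fin q)) (cay S)

/-- **CYL.** Cylinders without crossings.

Proof. `C = 6 (D + 1)`, `w ≥ C (D + 1)` columns per gap. Vertex `(a, j)`: column `c j = w j`, rows
`[C a, C a + C)`, and for each edge `(a, b)` of gap `j` its route in the columns strictly between `c j`
and `c (j + 1)` (the last gap may be wider): row at column `x` (of `w`) is
`⌊(α (w - x) + β x) / w⌋`, `α = C a + 3 (b - a + D)`, `β = C b + 3 (a - b + D)`, and in column `x` it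
uses the rows between the values for `x` and `x + 1` (at most two). Different edges of a gap are
comparable (`a ≤ a'`, `b ≤ b'`), and then `α' ≥ α + 3`, `β' ≥ β + 3`. -/
def CylStmt : Prop := ∀ (n : ℕ), 3 ≤ n → ∀ (D : ℕ) (E : ZMod n → ℤ → ℤ → Prop),
  (∀ j a b, E j a b → |a - b| ≤ D) →
  (∀ j a b a' b', E j a b → E j a' b' → a < a' → b ≤ b') →
  ∃ M₀ : ℕ, ∀ M, M₀ ≤ M → Mn (SimpleGraph.fromRel (fun x y : ℤ × ZMod n =>
    (y.2 = x.2 ∧ y.1 = x.1 + 1) ∨ (y.2 = x.2 + 1 ∧ E x.2 x.1 y.1))) (Cyl M)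

/-- **NCR.** (May assume `CylStmt`.)

Proof. The map `g ↦ (pos g, e g)` is a bijection; edges inside a line are steps (`t = s ^ d ∈ S` has
`|d| H ≤ H`); edges between different lines are between neighbours, `|pos a - pos b| ≤ 1`. If
`pos a < pos a'` and `pos b' < pos b`, then `a' = a s ^ i`, `b' = b s ^ (- k)`, `i, k ≥ 1`,
`(i + k) H ≤ H + h b - h a ≤ 2 H`, so `i = k = 1` and `h b = h a + H`: a crossing. -/
def NcrStmt : Prop := ∀ (Γ : Type u) [Group Γ] (S : Set Γ) (h : Γ → ℤ) (s : Γ) (H n m : ℕ),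
  Two S h s H n m → 3 ≤ n → ∀ e, IsCyc S s n e → (∀ j, ¬ Crs S h s H n e j) →
  ∃ M₀ : ℕ, ∀ M, M₀ ≤ M → Mn (cay S) (Cyl M)

/-! ### Part 4: sequences -/

/-- One-dimensional type (weaker than `T1`). -/
def T2 {V : Type*} (G : SimpleGraph V) (n : ℕ) : Prop :=
  (∃ N, N ≤ n * (n ! * n) ∧ ∃ D, Nonempty (G ≃g Per N D)) ∧
  ∀ p : ℕ, (2 * p + 3) ^ (8 * p + 6) + 5 ≤ n → Mn (Pk p) G ∨
    (Mn (Cyl n) G ∧ ∃ M₀ : ℕ, ∀ M, M₀ ≤ M → Mn G (Cyl M))

/-- **TTW.** Two-ended groups are of type `T2`. (May assume `PerStmt`, `StlStmt`, `DegStmt`,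
`CycStmt`, `CynStmt`, `CrxStmt`, `NcrStmt`; `pk_of_starZ`.)

Proof. `Ln S s` is connected, `Γ` acts transitively, so all degrees are equal. If they are `≥ 3`: DEG
and STL with `q = 2 p`. Otherwise CYC, and CYN, NCR, or CRX with `q = 2 p`
(`4 p + 4 ≤ n`). -/
def TtwStmt : Prop := ∀ (Γ : Type u) [Group Γ] (S : Set Γ) (h : Γ → ℤ) (s : Γ) (H n m : ℕ),
  Two S h s H n m → T2 (cay S) n

/-- **SEQ.** Copy `seq_wqo`. -/
def SeqStmt : Prop := ∀ (V : ℕ → Type u) [∀ i, Countable (V i)] (G : ∀ i, SimpleGraph (V i)),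
  (∀ i, KN (G i) ∨ (∃ b, Nonempty (G i ≃g Lat b)) ∨ ∃ n, T2 (G i) n) →
  ∃ i j, i < j ∧ Mn (G i) (G j)

/-- **FIN.** The final assembly. (May assume `ZedStmt`, `NilStmt`, `SchStmt`, `InfStmt`, `Gr2Stmt`,
`TwoStmt`, `TtwStmt`, `SeqStmt`; for abelian groups `T1` of `Pool.Agent.Results.MP_266b34_co.
AbelianGroups`, `types`, implies `T2`.) -/
def FinStmt : Prop := ∀ (Γ : ℕ → Type u) [∀ i, Group (Γ i)] [∀ i, Countable (Γ i)]
  (S : ∀ i, Set (Γ i)), (∀ i, IsGen (S i)) →
  (∀ i, (Infinite (Γ i) ∧ (Group.IsNilpotent (Γ i) ∨ (Subgroup.center (Γ i)).FiniteIndex)) ∨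
    KN (cay (S i))) → ∃ i j, i < j ∧ Mn (cay (S i)) (cay (S j))

end Pool.Agent.Helper61.NW
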