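import Pool.Agent.Helper61.NW.AsmC
import Pool.Agent.Helper34.NW.DIH
import Pool.Agent.Helper55.NW.TEN

/-! Project NW+: the assembly. -/

set_option autoImplicit false

namespace Pool.Agent.Helper61.NW

universe u

theorem nwp : Fn3Stmt.{u} := asmC Helper55.NW.ten Helper34.NW.dih

end Pool.Agent.Helper61.NW
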