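import Pool.Agent.Helper61.NW.AsmB
import Pool.Agent.Helper67.NW.CRX

/-! Project NW: the assembly. -/

set_option autoImplicit false

namespace Pool.Agent.Helper61.NW

universe u

/-- The types of the Cayley graphs of infinite groups that are nilpotent or have a centre of finite
index. -/
theorem nw : FinStmt.{u} := asmB Helper67.NW.crx

end Pool.Agent.Helper61.NW
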