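import Pool.Agent.Helper61.NW.FIN
import Pool.Agent.Helper22.NW.NCR
import Pool.Agent.Helper23.NW.INF
import Pool.Agent.Helper38.NW.TWO
import Pool.Agent.Helper50.NW.DEG
import Pool.Agent.Helper52.NW.SEQ
import Pool.Agent.Helper6.NW.CEN
import Pool.Agent.Helper66.NW.PER
import Pool.Agent.Helper7.NW.TTW
import Pool.Agent.Helper77.NW.STL
import Pool.Agent.Helper82.NW.CYC
import Pool.Agent.Helper91.NW.NIL
import Pool.Agent.Helper95.NW.GR2
import Pool.Agent.Helper96.NW.CYL

/-! Project NW: first part of the assembly. -/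

set_option autoImplicit false

namespace Pool.Agent.Helper61.NW

universe u

theorem asmA (hZed : ZedStmt.{u}) (hSch : SchStmt.{u}) (hCyn : CynStmt.{u}) (hCrx : CrxStmt.{u}) :
    FinStmt.{u} :=
  fin hZed (Helper91.NW.nil Helper6.NW.cen) hSch Helper23.NW.inf Helper95.NW.gr2 Helper38.NW.two
    (Helper7.NW.ttw Helper66.NW.per Helper77.NW.stl Helper50.NW.deg Helper82.NW.cyc hCyn hCrx
      (Helper22.NW.ncr Helper96.NW.cyl)) Helper52.NW.seq

end Pool.Agent.Helper61.NW
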