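import Pool.Agent.Helper61.NW.AsmA
import Pool.Agent.Helper13.NW.SCH
import Pool.Agent.Helper53.NW.CYN
import Pool.Agent.Helper74.NW.ZED

/-! Project NW: second part of the assembly. -/

set_option autoImplicit false

namespace Pool.Agent.Helper61.NW

universe u

theorem asmB (hCrx : CrxStmt.{u}) : FinStmt.{u} :=
  asmA Helper74.NW.zed Helper13.NW.sch Helper53.NW.cyn hCrx

end Pool.Agent.Helper61.NW
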