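import Pool.Agent.Helper61.NW.Goals
import Pool.Agent.Helper52.Wqo.Main
import Pool.Agent.Helper52.Wqo.Uni

/-! Packet NW-FIN: the assembly. -/

set_option autoImplicit false

namespace Pool.Agent.Helper61.NW

open Pool.Agent.Helper52 Pool.Agent.Helper52.Wq2 Pool.Agent.Helper52.Wqo
open scoped Nat

universe u

/-- Infinite generating sets of abelian groups. -/
theorem ab_inf {Γ : Type*} [CommGroup Γ] {S : Set Γ} (hS : Wq2.IsGen S)
    (hinf : S.Infinite) : Mn (⊤ : SimpleGraph ℕ) (cay S) := by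
  have hg : Gen S := ⟨hS.1, hS.2.1⟩
  obtain ⟨B, h1, h2, h3, h4⟩ := complete_minor hg hinf (fun F hF a b ha hb =>
    conn_conj hg hinf hF (fun g s hs => by rwa [mul_comm g s, mul_inv_cancel_right]) ha hb)
  refine ⟨B, ?_, h3, ?_⟩
  · intro v
    obtain ⟨r, hr⟩ := h1 v
    refine conn_of_root hr ?_
    intro x hx
    have key : ∀ c, Relation.ReflTransGen (fun x y => x⁻¹ * y ∈ S ∧ y ∈ B v) r c →
        Relation.ReflTransGen (fun a b => (cay S).Adj a b ∧ b ∈ B v) r c := by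
      intro c hc
      induction hc with
      | refl => exact Relation.ReflTransGen.refl
      | tail _ hbc ih => exact ih.tail ⟨(cay_adj hS _ _).2 hbc.1, hbc.2⟩
    exact key x (h2 v r hr x hx)
  · intro v w hvw
    obtain ⟨a, ha, b, hb, hab⟩ := h4 v w hvw
    exact ⟨a, ha, b, hb, (cay_adj hS a b).2 hab⟩

/-- `T1` implies `T2`. -/
theorem t1_t2 {V : Type*} {G : SimpleGraph V} {N : ℕ} (h : T1 G N) (hN : 0 < N) : T2 G N := by
  refine ⟨⟨N, ?_, h.1⟩, ?_⟩
  · have h1 : 0 < N ! * N := Nat.mul_pos (Nat.factorial_pos N) hN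
    exact Nat.le_mul_of_pos_right N h1
  · intro p hp
    have h5 : 5 ≤ N := by omega
    have hbase : (2 * p) ^ (6 * p) ≤ (2 * p + 3) ^ (8 * p + 6) := by
      calc (2 * p) ^ (6 * p) ≤ (2 * p + 3) ^ (6 * p) := Nat.pow_le_pow_left (by omega) _
        _ ≤ (2 * p + 3) ^ (8 * p + 6) := Nat.pow_le_pow_right (by omega) (by omega)
    have h4 : 4 * p ≤ (2 * p + 3) ^ (8 * p + 6) := by
      calc 4 * p ≤ (2 * p + 3) ^ 2 := by nlinarith
        _ ≤ (2 * p + 3) ^ (8 * p + 6) := Nat.pow_le_pow_right (by omega) (by omega)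
    rcases h.2 h5 with h6 | ⟨h6, h7⟩
    · exact Or.inl (h6 p (by omega) (by omega))
    · exact Or.inr ⟨h6, 3 * N, h7⟩

theorem ab_types {Γ : Type*} [CommGroup Γ] (hΓ : Infinite Γ) {S : Set Γ} (hS : Wq2.IsGen S) :
    Mn (⊤ : SimpleGraph ℕ) (cay S) ∨ (∃ b, Nonempty (cay S ≃g Lat b)) ∨
      ∃ N, T2 (cay S) N := by
  by_cases hfin : S.Finite
  · rcases ind_or_R1 hΓ hS hfin with ⟨s, hs, t, ht, hind⟩ | ⟨s, N, F, h⟩
    · rcases rank2 hS hs ht hind with h | h
      · exact Or.inl h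
      · exact Or.inr (Or.inl h)
    · rcases Nat.eq_zero_or_pos N with h0 | h0
      · exfalso
        subst h0
        obtain ⟨D, ⟨e⟩⟩ := h.per
        exact (e 1).2.elim0
      · exact Or.inr (Or.inr ⟨N, t1_t2 h.t1 h0⟩)
  · exact Or.inl (ab_inf hS hfin)

theorem ab_types' {Γ : Type*} [G : Group Γ] (hΓ : Infinite Γ) (hcomm : ∀ a b : Γ, a * b = b * a)
    {S : Set Γ} (hS : Wq2.IsGen S) :
    Mn (⊤ : SimpleGraph ℕ) (cay S) ∨ (∃ b, Nonempty (cay S ≃g Lat b)) ∨
      ∃ N, T2 (cay S) N := by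
  let C : CommGroup Γ := { G with mul_comm := hcomm }
  exact @ab_types Γ C hΓ S hS

/-- The types of the Cayley graphs. -/
theorem nw_types (hZ : ZedStmt.{u}) (hN : NilStmt.{u}) (hSc : SchStmt.{u}) (hI : InfStmt.{u})
    (hG : Gr2Stmt.{u}) (hT : TwoStmt.{u}) (hW : TtwStmt.{u}) (Γ : Type u) [Group Γ] (S : Set Γ)
    (hΓ : Infinite Γ) (hS : Wq2.IsGen S)
    (hc : Group.IsNilpotent Γ ∨ (Subgroup.center Γ).FiniteIndex) :
    KN (cay S) ∨ (∃ b, Nonempty (cay S ≃g Lat b)) ∨ ∃ n, T2 (cay S) n := by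
  by_cases hfin : S.Finite
  · have hfg : Group.FG Γ := by
      refine Group.fg_iff.2 ⟨S, hS.1, hfin⟩
    have h1 : (Subgroup.center Γ).FiniteIndex ∨ Big Γ := by
      rcases hc with hc | hc
      · exact hN Γ hfg hΓ hc
      · exact Or.inl hc
    rcases h1 with h1 | h1
    · rcases hSc Γ hfg hΓ h1 with h2 | ⟨h, h2, h3⟩ | ⟨h, h2, h3⟩
      · exact Or.inl (hZ Γ S hS hfin h2)
      · obtain ⟨h', s, H, n, m, hTwo⟩ := hT Γ h S h2 h3 hS hfin
        exact Or.inr (Or.inr ⟨n, hW Γ S h' s H n m hTwo⟩)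
      · by_cases hk : ∃ k : Γ, k ≠ 1 ∧ h k = 1
        · exact Or.inl (complete_of_starZ.trans (hG Γ h S h2 h3 hk hS hfin))
        · push Not at hk
          have hinj : Function.Injective h := by
            rw [injective_iff_map_eq_one]
            intro a ha
            by_contra hne
            exact hk a hne ha
          exact ab_types' hΓ (fun a b => hinj (by rw [map_mul, map_mul, mul_comm])) hS
    · exact Or.inl (hZ Γ S hS hfin h1)
  · exact Or.inl (hI Γ S hΓ hS hfin hc)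

theorem fin (hZ : ZedStmt.{u}) (hN : NilStmt.{u}) (hSc : SchStmt.{u}) (hI : InfStmt.{u})
    (hG : Gr2Stmt.{u}) (hT : TwoStmt.{u}) (hW : TtwStmt.{u}) (hQ : SeqStmt.{u}) :
    FinStmt.{u} := by
  intro Γ _ _ S hS h
  refine hQ Γ (fun i => cay (S i)) ?_
  intro i
  rcases h i with ⟨hi, hc⟩ | hk
  · exact nw_types hZ hN hSc hI hG hT hW (Γ i) (S i) hi (hS i) hc
  · exact Or.inl hk

end Pool.Agent.Helper61.NW
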