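import Pool.Agent.Helper61.NW.Goals2
import Pool.Agent.Helper61.NW.FIN

/-! Packet NW-FN3: the assembly. -/

set_option autoImplicit false

namespace Pool.Agent.Helper61.NW

open Pool.Agent.Helper52 Pool.Agent.Helper52.Wq2 Pool.Agent.Helper52.Wqo
open scoped Nat

universe u

/-- `T2` implies `T3`. -/
theorem t2_t3 {V : Type*} {G : SimpleGraph V} {n : ℕ} (h : T2 G n) : T3 G n := by
  obtain ⟨⟨N, hN, hD⟩, h2⟩ := h
  refine ⟨⟨N, le_trans hN ?_, hD⟩, h2⟩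
  rcases Nat.eq_zero_or_pos n with h0 | h0
  · subst h0
    simp
  · refine Nat.mul_le_mul_left _ ?_
    have h3 : n ! * n ≤ n ! * (n * n) := Nat.mul_le_mul_left _ (Nat.le_mul_of_pos_left n h0)
    omega

theorem t3_iso {V W : Type*} {G : SimpleGraph V} {G' : SimpleGraph W} (e : G ≃g G') {n : ℕ}
    (h : T3 G' n) : T3 G n := by
  obtain ⟨⟨N, hN, D, ⟨d⟩⟩, h2⟩ := h
  refine ⟨⟨N, hN, D, ⟨e.trans d⟩⟩, ?_⟩
  intro p hp
  rcases h2 p hp with h3 | ⟨h3, M₀, h4⟩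
  · exact Or.inl (h3.trans (Mn.of_iso e.symm))
  · exact Or.inr ⟨h3.trans (Mn.of_iso e.symm), M₀, fun M hM => (Mn.of_iso e).trans (h4 M hM)⟩

/-- Two-ended groups. -/
theorem ten_types (hSc : SchStmt.{u}) (hT : TwoStmt.{u}) (hW : TtwStmt.{u})
    (hTen : TenStmt.{u}) (hDih : DihStmt.{u}) (hL : LttStmt) (Γ : Type u) [Group Γ] (S : Set Γ)
    (hΓ : Infinite Γ) (hS : Wq2.IsGen S) (hfin : S.Finite)
    (hc : ∃ c : Γ, (Subgroup.zpowers c).FiniteIndex) : ∃ n, T3 (cay S) n := by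
  rcases hTen Γ hΓ hc with ⟨h, h2, h3⟩ | ⟨ε, h, hD⟩
  · obtain ⟨h', s, H, n, m, hTwo⟩ := hT Γ h S h2 h3 hS hfin
    exact ⟨n, t2_t3 (hW Γ S h' s H n m hTwo)⟩
  · obtain ⟨n, m, G, hm, hG, ⟨e⟩⟩ := hDih Γ ε h S hD hS hfin
    exact ⟨n, t3_iso e (hL n m G hG hm)⟩

theorem fn3 (hZ : ZedStmt.{u}) (hN : NilStmt.{u}) (hSc : SchStmt.{u}) (hI : InfStmt.{u})
    (hG : Gr2Stmt.{u}) (hT : TwoStmt.{u}) (hW : TtwStmt.{u}) (hZ2 : Zd2Stmt.{u})
    (hV : VnlStmt.{u}) (hI3 : In3Stmt.{u}) (hTen : TenStmt.{u}) (hDih : DihStmt.{u})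
    (hL : LttStmt) (hQ : Sq3Stmt.{u}) : Fn3Stmt.{u} := by
  intro Γ _ _ S hS h
  refine hQ Γ (fun i => cay (S i)) ?_
  intro i
  rcases h i with ⟨hi, hc⟩ | hk
  · have h1 : ∀ hc : Group.IsNilpotent (Γ i) ∨ (Subgroup.center (Γ i)).FiniteIndex,
        KN (cay (S i)) ∨ (∃ b, Nonempty (cay (S i) ≃g Lat b)) ∨ ∃ n, T3 (cay (S i)) n := by
      intro hc
      rcases nw_types hZ hN hSc hI hG hT hW (Γ i) (S i) hi (hS i) hc with h2 | h2 | ⟨n, h2⟩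
      · exact Or.inl h2
      · exact Or.inr (Or.inl h2)
      · exact Or.inr (Or.inr ⟨n, t2_t3 h2⟩)
    rcases hc with hc | hc | ⟨hc, hnz⟩
    · exact h1 (Or.inl hc)
    · exact h1 (Or.inr hc)
    · by_cases hfin : (S i).Finite
      · have hfg : Group.FG (Γ i) := Group.fg_iff.2 ⟨S i, (hS i).1, hfin⟩
        rcases hV (Γ i) hfg hi hc with h2 | h2 | h2
        · exact Or.inl (hZ2 (Γ i) (S i) (hS i) hfin h2)
        · exact absurd h2 hnz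
        · exact Or.inr (Or.inr (ten_types hSc hT hW hTen hDih hL (Γ i) (S i) hi (hS i) hfin h2))
      · exact Or.inl (hI3 (Γ i) (S i) hi (hS i) hfin hc)
  · exact Or.inl hk

end Pool.Agent.Helper61.NW
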