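import Pool.Agent.Helper61.NW.Asm
import Pool.Agent.Helper61.NW.FN3
import Pool.Agent.Helper14.NW.VNL
import Pool.Agent.Helper22.NW.LNC
import Pool.Agent.Helper23.NW.IN3
import Pool.Agent.Helper35.NW.ZD2
import Pool.Agent.Helper52.NW.SQ3
import Pool.Agent.Helper53.NW.LCN
import Pool.Agent.Helper66.NW.LPR
import Pool.Agent.Helper7.NW.LTT
import Pool.Agent.Helper77.NW.LST
import Pool.Agent.Helper95.TE.LCX

/-! Project NW+: first part of the assembly. -/

set_option autoImplicit false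

namespace Pool.Agent.Helper61.NW

universe u

theorem ltt : LttStmt :=
  Helper7.NW.ltt Helper66.NW.lpr Helper77.NW.lst Helper50.NW.deg Helper82.NW.cyc Helper53.NW.lcn
    Helper95.TE.lcx (Helper22.NW.lnc Helper96.NW.cyl)

theorem asmC (hTen : TenStmt.{u}) (hDih : DihStmt.{u}) : Fn3Stmt.{u} :=
  fn3 Helper74.NW.zed (Helper91.NW.nil Helper6.NW.cen) Helper13.NW.sch Helper23.NW.inf
    Helper95.NW.gr2 Helper38.NW.two
    (Helper7.NW.ttw Helper66.NW.per Helper77.NW.stl Helper50.NW.deg Helper82.NW.cyc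
      Helper53.NW.cyn Helper67.NW.crx (Helper22.NW.ncr Helper96.NW.cyl))
    Helper35.NW.zd2 (Helper14.NW.vnl (Helper91.NW.nil Helper6.NW.cen) Helper13.NW.sch)
    Helper23.NW.in3 hTen hDih ltt Helper52.NW.sq3

end Pool.Agent.Helper61.NW
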